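import Pool.Agent.H47.ST.Targets

namespace Pool.Agent.H39.STK

open Finset Pool.Agent.H47.ST

theorem length_upR (e : ℕ) : ∀ (Bs : List (List ℕ)) (h : ℕ), (upR e h Bs).length = Bs.length
  | [], _ => rfl
  | B :: Bs, h => by
      rw [upR, List.length_cons, List.length_cons, length_upR e Bs]

theorem length_mir (st : List (List ℕ)) : (mir st).length = st.length := by
  unfold mir
  rw [List.length_reverse, List.length_map]

theorem length_upL (e h : ℕ) (st : List (List ℕ)) : (upL e h st).length = st.length := by
  unfold upL
  rw [length_mir, length_upR, length_mir]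

theorem length_plq (e : ℕ) (q : Pl) :
    (plq e q).length = (q.1 ++ (q.2.1 ++ q.2.2.1) :: q.2.2.2).length := by
  unfold plq place
  rw [List.length_append, List.length_append, List.length_cons, List.length_cons, length_upL,
    length_upR]

theorem main (h1 : T_LOW) (h2 : T_PLC) (R m0 m : ℕ) (W U D l : ℝ) (hR : 1 ≤ R) (hW : 1 ≤ W)
    (hU : 1 ≤ U) (hD : 1 ≤ D) (hl : 0 ≤ l) (hP : POT R m0 m W U D l) :
    ∀ (k : ℕ) (st : List (List ℕ)), st.length = m → okR R st → okM m0 st →
      (NN R m0 k st : ℝ) ≤ l ^ k * (D ^ ((R + 1) * m) * PHI R W U D 1 st) := by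
  intro k
  induction k with
  | zero =>
    intro st hm hr _
    have h := h1 R m W U D st hR hW hU hD hm hr
    rw [NN, pow_zero, one_mul, Nat.cast_one]
    linarith [mul_comm (PHI R W U D 1 st) (D ^ ((R + 1) * m))]
  | succ k ih =>
    intro st hm hr hM
    have hPs := hP st hm hr hM
    have hD0 : 0 ≤ D ^ ((R + 1) * m) := pow_nonneg (by linarith) _
    have hlk : 0 ≤ l ^ k := pow_nonneg hl _
    rw [NN, Nat.cast_list_sum, List.map_map]
    refine (List.sum_le_sum (g := fun q => (l ^ k * D ^ ((R + 1) * m)) *
      (open Classical in if okR R (plq 1 q) ∧ okM m0 (plq 1 q)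
        then PHI R W U D 1 (plq 1 q) else 0)) ?_).trans ?_
    · intro q hq
      have hq' := (h2 st q).1 hq
      have hlen : (plq 1 q).length = m := by rw [length_plq, ← hq', hm]
      simp only [Function.comp_apply]
      split_ifs with hok
      · have := ih (plq 1 q) hlen hok.1 hok.2
        calc (NN R m0 k (plq 1 q) : ℝ) ≤ _ := this
          _ = _ := by ring
      · simp
    · rw [List.sum_map_mul_left]
      calc l ^ k * D ^ ((R + 1) * m) * _ ≤ l ^ k * D ^ ((R + 1) * m) * (l * PHI R W U D 1 st) :=
            mul_le_mul_of_nonneg_left hPs (by positivity)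
        _ = _ := by ring

theorem pf_NNB (h1 : T_LOW) (h2 : T_PLC) : T_NNB := by
  intro R m0 m n W U D l hR hW hU hD hl hP
  have h := main h1 h2 R m0 m W U D l hR hW hU hD hl hP n (List.replicate m [])
    List.length_replicate ?_ ?_
  · have hPA : PA R W U 1 (List.replicate m []) = 1 := by
      unfold PA
      rw [List.map_replicate, phC, List.prod_replicate, one_pow]
    have hts : Pool.Agent.H47.ST.tsum (List.replicate m []) = 0 := by
      unfold Pool.Agent.H47.ST.tsum
      rw [List.map_replicate, top, List.sum_replicate, smul_zero]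
    have hPHI : PHI R W U D 1 (List.replicate m []) = 1 := by
      unfold PHI
      rw [hPA, hts, pow_zero, div_one]
    rw [hPHI, mul_one] at h
    exact h
  · intro B hB r hr
    rw [List.eq_of_mem_replicate hB] at hr
    simp at hr
  · intro B hB
    rw [List.eq_of_mem_replicate hB]
    exact Nat.zero_le _

end Pool.Agent.H39.STK
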